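import Pool.Agent.NH21.Nls.Stm
import Pool.Agent.H373R2.T7.LamMaj
import Pool.Agent.H373R2.T7.SupE2
import Pool.Agent.H442R2.EHI.Ram
import Pool.Agent.H998.LC.Pow.Base

/-! # Large exponential sums over primes, and the number of primes in a dyadic block -/

set_option autoImplicit false

namespace Pool.Agent.NH21.Nls

open Finset Filter Topology
open Pool.Agent.H807R2.Dav
open Pool.Agent.H373R2.T7

/-- `ee` and `e` -/
lemma e_eq_ee (x : ℝ) : Pool.Agent.H469R2.NK.e x = ee x := by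
  unfold Pool.Agent.H469R2.NK.e ee
  congr 1
  push_cast
  ring

/-- the sum over the reduced classes -/
lemma ram_sum (q n : ℕ) (hq : 1 ≤ q) (h : n.Coprime q) :
    ∑ c ∈ (range q).filter (fun c => c.Coprime q), ee ((c : ℝ) * ((n : ℝ) / q)) =
      ((ArithmeticFunction.moebius q : ℤ) : ℂ) := by
  have h1 := Pool.Agent.H442R2.EHI.cq_coprime q n hq h
  rw [← h1]
  unfold Pool.Agent.H442R2.EHI.cq
  refine sum_congr rfl fun c _ => ?_
  rw [e_eq_ee]
  congr 1
  ring

/-- the exponential sum over primes at a rational point -/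
lemma rat_point (K U : ℕ) : ∃ N0 : ℕ, ∀ N : ℕ, N0 ≤ N → ∀ q n : ℕ, 1 ≤ q → (q : ℝ) ≤ Real.log N ^ K → n.Coprime q →
    ∀ y : ℕ, y ≤ N →
    ‖∑ m ∈ Icc 1 y, (((ArithmeticFunction.vonMangoldt m : ℝ) : ℂ) * ee ((m : ℝ) * ((n : ℝ) / q)) -
      ((ArithmeticFunction.moebius q : ℤ) : ℂ) / (Nat.totient q : ℂ))‖ ≤ q * (N / Real.log N ^ U) := by
  obtain ⟨N0, h0⟩ := lam_ap K U
  refine ⟨N0, fun N hN q n hq hqN hcop y hy => ?_⟩
  have hq0 : (0 : ℝ) < q := by exact_mod_cast hq
  have hφ : (0 : ℝ) < Nat.totient q := by exact_mod_cast Nat.totient_pos.2 hq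
  have h1 := fun c => h0 N hN q hq hqN c y hy
  have e1 : ∑ m ∈ Icc 1 y, ((ArithmeticFunction.vonMangoldt m : ℝ) : ℂ) * ee ((m : ℝ) * ((n : ℝ) / q)) =
      ∑ c ∈ range q, ee ((c : ℝ) * ((n : ℝ) / q)) *
        ((∑ m ∈ (Icc 1 y).filter (fun m => m ≡ c [MOD q]), ArithmeticFunction.vonMangoldt m : ℝ) : ℂ) := by
    have hmaps : ∀ m ∈ Icc 1 y, m % q ∈ range q := fun m _ => mem_range.2 (Nat.mod_lt _ hq)
    rw [← sum_fiberwise_of_maps_to hmaps]
    refine sum_congr rfl fun c hc => ?_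
    rw [mem_range] at hc
    push_cast
    rw [mul_sum]
    have e2 : (Icc 1 y).filter (fun m => m % q = c) = (Icc 1 y).filter (fun m => m ≡ c [MOD q]) := by
      refine filter_congr fun m _ => ?_
      unfold Nat.ModEq
      rw [Nat.mod_eq_of_lt hc]
    rw [e2]
    refine sum_congr rfl fun m hm => ?_
    have h2 : m ≡ c [MOD q] := (mem_filter.1 hm).2
    rw [mul_comm]
    congr 1
    -- the phase
    obtain ⟨t, ht⟩ : ∃ t : ℤ, (m : ℤ) = c + q * t := by
      have h3 := (Nat.modEq_iff_dvd.1 h2.symm)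
      obtain ⟨t, ht⟩ := h3
      exact ⟨t, by linarith⟩
    have e3 : (m : ℝ) * ((n : ℝ) / q) = (c : ℝ) * ((n : ℝ) / q) + ((t * n : ℤ) : ℝ) := by
      have : (m : ℝ) = c + q * t := by exact_mod_cast ht
      rw [this]
      push_cast
      field_simp
    rw [e3, ee_add_int]
  have e4 : ∑ m ∈ Icc 1 y, (((ArithmeticFunction.vonMangoldt m : ℝ) : ℂ) * ee ((m : ℝ) * ((n : ℝ) / q)) -
      ((ArithmeticFunction.moebius q : ℤ) : ℂ) / (Nat.totient q : ℂ)) =
      ∑ c ∈ range q, ee ((c : ℝ) * ((n : ℝ) / q)) *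
        (((∑ m ∈ (Icc 1 y).filter (fun m => m ≡ c [MOD q]), ArithmeticFunction.vonMangoldt m) -
          (if c.Coprime q then (y : ℝ) / (Nat.totient q : ℝ) else 0) : ℝ) : ℂ) := by
    rw [sum_sub_distrib, e1, sum_const, Nat.card_Icc, Nat.add_sub_cancel, nsmul_eq_mul, ← ram_sum q n hq hcop]
    push_cast
    simp_rw [mul_sub]
    rw [sum_sub_distrib]
    congr 1
    rw [sum_filter, sum_div, mul_sum]
    refine sum_congr rfl fun c _ => ?_
    split_ifs
    · push_cast
      ring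
    · simp
  rw [e4]
  refine (norm_sum_le _ _).trans ?_
  calc ∑ c ∈ range q, ‖ee ((c : ℝ) * ((n : ℝ) / q)) *
        (((∑ m ∈ (Icc 1 y).filter (fun m => m ≡ c [MOD q]), ArithmeticFunction.vonMangoldt m) -
          (if c.Coprime q then (y : ℝ) / (Nat.totient q : ℝ) else 0) : ℝ) : ℂ)‖ ≤
      ∑ c ∈ range q, (N / Real.log N ^ U : ℝ) := by
        refine sum_le_sum fun c _ => ?_
        rw [norm_mul, norm_ee, one_mul, Complex.norm_real, Real.norm_eq_abs]
        exact h1 c
    _ = _ := by rw [sum_const, card_range, nsmul_eq_mul]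

theorem es : S_E := by
  intro c hc
  obtain ⟨b, N1, hminor⟩ := minor_primes 1
  obtain ⟨N2, hrat⟩ := rat_point b (2 * b + 2)
  obtain ⟨N3, hL⟩ := ev_L' (max 16 (4 / c))
  obtain ⟨N4, hroot⟩ := ev_log' b 1
  obtain ⟨B, hB⟩ : ∃ B : ℕ, B = ⌈8 / c ^ 2⌉₊ + ⌈2 / c⌉₊ := ⟨_, rfl⟩
  refine ⟨B, max (max N1 N2) (max (max N3 N4) 4), fun N hN α hα => ?_⟩
  have hN1 : N1 ≤ N := le_trans (le_trans (le_max_left _ _) (le_max_left _ _)) hN
  have hN2 : N2 ≤ N := le_trans (le_trans (le_max_right _ _) (le_max_left _ _)) hN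
  have hN3 : N3 ≤ N := le_trans (le_trans (le_trans (le_max_left _ _) (le_max_left _ _)) (le_max_right _ _)) hN
  have hN4' : N4 ≤ N := le_trans (le_trans (le_trans (le_max_right _ _) (le_max_left _ _)) (le_max_right _ _)) hN
  have hN4 : 4 ≤ N := le_trans (le_trans (le_max_right _ _) (le_max_right _ _)) hN
  have hL := hL N hN3
  have hroot := hroot N hN4'
  rw [one_mul] at hroot
  obtain ⟨L, hLd⟩ : ∃ L, L = Real.log N := ⟨_, rfl⟩
  rw [← hLd] at hL hroot
  have hL16 : 16 ≤ L := (le_max_left _ _).trans hL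
  have hLc : 4 / c ≤ L := (le_max_right _ _).trans hL
  have hL0 : 0 < L := by linarith
  have hNr : (0 : ℝ) < N := by exact_mod_cast (by omega : 0 < N)
  have hN4r : (4 : ℝ) ≤ N := by exact_mod_cast hN4
  have hcN : N / L ≤ c * N / 4 := by
    rw [div_le_iff₀ hc] at hLc
    rw [div_le_iff₀ hL0]
    nlinarith
  have hLb1 : 1 ≤ L ^ b := one_le_pow₀ (by linarith)
  have hLbN : L ^ b ≤ N / 2 := by
    have h1 : √(N : ℝ) ≤ N / 2 := by
      rw [Real.sqrt_le_left (by positivity)]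
      nlinarith
    exact hroot.trans h1
  -- Dirichlet
  obtain ⟨Q, hQ⟩ : ∃ Q : ℕ, Q = ⌊(N : ℝ) / L ^ b⌋₊ := ⟨_, rfl⟩
  have hQ1 : 0 < Q := by
    rw [hQ]
    apply Nat.floor_pos.2
    rw [le_div_iff₀ (by positivity)]
    linarith
  obtain ⟨r, hr1, hr2⟩ := Real.exists_rat_abs_sub_le_and_den_le α hQ1
  obtain ⟨q, hq⟩ : ∃ q, q = r.den := ⟨_, rfl⟩
  have hq1 : 1 ≤ q := by rw [hq]; exact r.den_pos
  have hqr : (0 : ℝ) < q := by exact_mod_cast hq1
  have hrr : (r : ℝ) = r.num / q := by rw [hq]; exact Rat.cast_def r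
  rw [← hq] at hr1 hr2
  rw [hrr] at hr1
  have hqQ : (q : ℝ) ≤ N / L ^ b := by
    have h1 : (q : ℝ) ≤ Q := by exact_mod_cast hr2
    rw [hQ] at h1
    exact h1.trans (Nat.floor_le (by positivity))
  have hQl : (N : ℝ) / L ^ b < Q + 1 := by rw [hQ]; exact Nat.lt_floor_add_one _
  have hcop : IsCoprime r.num (q : ℤ) := by rw [hq]; exact Int.isCoprime_iff_gcd_eq_one.2 r.reduced
  have happ1 : |α - r.num / q| ≤ 1 / (q : ℝ) ^ 2 := by
    refine hr1.trans ?_
    apply one_div_le_one_div_of_le (by positivity)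
    have h1 : (q : ℝ) ≤ Q := by exact_mod_cast hr2
    nlinarith
  have happ2 : |α - r.num / q| ≤ L ^ b / (N * q) := by
    refine hr1.trans ?_
    rw [div_le_div_iff₀ (by positivity) (by positivity)]
    rw [div_lt_iff₀ (by positivity)] at hQl
    nlinarith
  by_cases hbig : L ^ b ≤ q
  · exfalso
    have h1 := hminor N hN1 q (by rw [← hLd]; exact hbig) (by rw [← hLd]; exact hqQ) r.num hcop α happ1
    rw [← hLd, pow_one] at h1
    have h2 := hα.trans (h1.trans hcN)
    have : 0 < c * N := by positivity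
    linarith
  · push Not at hbig
    -- the numerator as a natural number
    obtain ⟨n, t, hn, hncop⟩ : ∃ (n : ℕ) (t : ℤ), r.num = n + q * t ∧ n.Coprime q := by
      refine ⟨(r.num % q).toNat, r.num / q, ?_, ?_⟩
      · have h1 : 0 ≤ r.num % q := Int.emod_nonneg _ (by exact_mod_cast (by omega : q ≠ 0))
        rw [Int.toNat_of_nonneg h1]
        exact (Int.emod_add_mul_ediv _ _).symm
      · have h1 : 0 ≤ r.num % q := Int.emod_nonneg _ (by exact_mod_cast (by omega : q ≠ 0))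
        rw [← Nat.isCoprime_iff_coprime, Int.toNat_of_nonneg h1]
        have h2 : r.num % q = r.num + q * (-(r.num / q)) := by
          have := Int.emod_add_mul_ediv r.num q
          linarith
        rw [h2]
        exact (IsCoprime.add_mul_left_left_iff).2 hcop
    obtain ⟨β, hβ⟩ : ∃ β, β = α - r.num / q := ⟨_, rfl⟩
    rw [← hβ] at happ2 happ1
    have hβ1 : |β| ≤ L ^ b / (N * q) := happ2
    have hβ2 : |β| ≤ 1 / 2 := by
      refine hβ1.trans ?_
      rw [div_le_iff₀ (by positivity)]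
      have : (1 : ℝ) ≤ q := by exact_mod_cast hq1
      nlinarith
    obtain ⟨κ, hκ⟩ : ∃ κ : ℂ, κ = ((ArithmeticFunction.moebius q : ℤ) : ℂ) / (Nat.totient q : ℂ) := ⟨_, rfl⟩
    have hφ : (0 : ℝ) < Nat.totient q := by exact_mod_cast Nat.totient_pos.2 hq1
    have hκn : ‖κ‖ ≤ 1 / Nat.totient q := by
      rw [hκ, norm_div, Complex.norm_natCast, Complex.norm_intCast]
      apply div_le_div_of_nonneg_right _ hφ.le
      exact_mod_cast ArithmeticFunction.abs_moebius_le_one
    obtain ⟨F, hF⟩ : ∃ F : ℕ → ℂ, F = fun m => ((ArithmeticFunction.vonMangoldt m : ℝ) : ℂ) * ee ((m : ℝ) * ((n : ℝ) / q)) - κ :=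
      ⟨_, rfl⟩
    have hM : ∀ y : ℕ, y ≤ N → ‖∑ m ∈ Icc 1 y, F m‖ ≤ q * (N / L ^ (2 * b + 2)) := by
      intro y hy
      have h1 := hrat N hN2 q n hq1 (by rw [← hLd]; exact hbig.le) hncop y hy
      rw [hF, hκ]
      rw [← hLd] at h1
      exact h1
    have h1 := abel_ee F β (q * (N / L ^ (2 * b + 2))) N hM
    have h2 : ‖ee β - 1‖ ≤ 7 * |β| := by
      have h3 := dd_le β
      unfold dd at h3
      rw [← norm_neg, neg_sub]
      have h4 := Real.pi_lt_d2
      nlinarith [abs_nonneg β, norm_nonneg (1 - ee β)]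
    have h3 : q * (N / L ^ (2 * b + 2)) * (1 + N * ‖ee β - 1‖) ≤ N / L := by
      have h4 : N * ‖ee β - 1‖ ≤ 7 * L ^ b / q := by
        calc N * ‖ee β - 1‖ ≤ N * (7 * (L ^ b / (N * q))) := by
              apply mul_le_mul_of_nonneg_left _ hNr.le
              linarith
          _ = 7 * L ^ b / q := by field_simp
      have h5 : q * (1 + N * ‖ee β - 1‖) ≤ 8 * L ^ b := by
        calc q * (1 + N * ‖ee β - 1‖) ≤ q * (1 + 7 * L ^ b / q) := by
              apply mul_le_mul_of_nonneg_left _ hqr.le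
              linarith
          _ = q + 7 * L ^ b := by field_simp
          _ ≤ 8 * L ^ b := by linarith
      calc q * (N / L ^ (2 * b + 2)) * (1 + N * ‖ee β - 1‖) = (N / L ^ (2 * b + 2)) * (q * (1 + N * ‖ee β - 1‖)) := by ring
        _ ≤ (N / L ^ (2 * b + 2)) * (8 * L ^ b) := mul_le_mul_of_nonneg_left h5 (by positivity)
        _ = (N / L) * (8 / L ^ (b + 1)) := by
            have : L ^ (2 * b + 2) = L ^ b * L ^ (b + 1) * L := by ring
            rw [this]
            field_simp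
        _ ≤ (N / L) * 1 := by
            apply mul_le_mul_of_nonneg_left _ (by positivity)
            rw [div_le_one (by positivity)]
            rw [pow_succ]
            nlinarith
        _ = N / L := mul_one _
    -- the main term
    have h4 : ∑ m ∈ Icc 1 N, ((ArithmeticFunction.vonMangoldt m : ℝ) : ℂ) * ee ((m : ℝ) * α) =
        ∑ m ∈ Icc 1 N, F m * ee (m * β) + κ * ∑ m ∈ Ico 1 (N + 1), ee ((m : ℝ) * β) := by
      have e1 : Ico 1 (N + 1) = Icc 1 N := by ext m; rw [mem_Ico, mem_Icc]; omega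
      rw [e1, mul_sum, ← sum_add_distrib]
      refine sum_congr rfl fun m _ => ?_
      have e2 : (m : ℝ) * α = (m : ℝ) * ((n : ℝ) / q) + (m : ℝ) * β + ((m * t : ℤ) : ℝ) := by
        rw [hβ, hn]
        push_cast
        field_simp
        ring
      rw [e2, ee_add_int, ee_add, hF]
      ring
    have h5 : c * N / 2 ≤ (1 / Nat.totient q) * ‖∑ m ∈ Ico 1 (N + 1), ee ((m : ℝ) * β)‖ := by
      have h6 : ‖∑ m ∈ Icc 1 N, ((ArithmeticFunction.vonMangoldt m : ℝ) : ℂ) * ee ((m : ℝ) * α)‖ ≤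
          N / L + (1 / Nat.totient q) * ‖∑ m ∈ Ico 1 (N + 1), ee ((m : ℝ) * β)‖ := by
        rw [h4]
        refine (norm_add_le _ _).trans (add_le_add (h1.trans h3) ?_)
        rw [norm_mul]
        exact mul_le_mul_of_nonneg_right hκn (norm_nonneg _)
      have : 0 < c * N := by positivity
      linarith
    have hgeo : ‖∑ m ∈ Ico 1 (N + 1), ee ((m : ℝ) * β)‖ ≤ N := by
      refine (norm_sum_le _ _).trans ?_
      simp [norm_ee]
    have hφle : (Nat.totient q : ℝ) ≤ 2 / c := by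
      have h6 : c * N / 2 ≤ (1 / Nat.totient q) * N :=
        h5.trans (mul_le_mul_of_nonneg_left hgeo (by positivity))
      rw [one_div, inv_mul_eq_div, le_div_iff₀ hφ] at h6
      rw [le_div_iff₀ hc]
      have h7 : (Nat.totient q : ℝ) * c * N ≤ 2 * N := by linarith
      exact le_of_mul_le_mul_right h7 hNr
    have hqB : (q : ℝ) ≤ 8 / c ^ 2 := by
      have h6 : (q : ℝ) ≤ 2 * (Nat.totient q : ℝ) ^ 2 := by
        exact_mod_cast Pool.Agent.H998.LC.Pow.le_two_mul_totient_sq (by omega : q ≠ 0)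
      calc (q : ℝ) ≤ 2 * (Nat.totient q : ℝ) ^ 2 := h6
        _ ≤ 2 * (2 / c) ^ 2 := by gcongr
        _ = 8 / c ^ 2 := by ring
    have hBr : (B : ℝ) = (⌈8 / c ^ 2⌉₊ : ℝ) + (⌈2 / c⌉₊ : ℝ) := by rw [hB]; push_cast; ring
    have hB1 := Nat.le_ceil (8 / c ^ 2)
    have hB2 := Nat.le_ceil (2 / c)
    have hB3 : (0 : ℝ) ≤ (⌈8 / c ^ 2⌉₊ : ℝ) := Nat.cast_nonneg _
    have hB4 : (0 : ℝ) ≤ (⌈2 / c⌉₊ : ℝ) := Nat.cast_nonneg _
    refine ⟨q, hq1, ?_, r.num, ?_⟩
    · have : (q : ℝ) ≤ B := by rw [hBr]; linarith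
      exact_mod_cast this
    · rw [← hβ]
      rcases eq_or_ne β 0 with h0 | h0
      · rw [h0, abs_zero]; positivity
      · have hβ0 : 0 < |β| := abs_pos.2 h0
        have hdd : 4 * |β| ≤ dd β := by
          have h6 : dd β = dd |β| := by
            rcases abs_choice β with h | h
            · rw [h]
            · rw [h, dd_neg]
          rw [h6]
          have h7 := dd_ge (abs_nonneg β) (by linarith : |β| ≤ 1)
          rwa [min_eq_left (by linarith)] at h7
        have h6 := geo_bound 1 (N + 1) (by omega) (M := N) (by push_cast; linarith) β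
        have h7 := h6.trans (KK_le' hNr.le (by positivity) hdd)
        have h8 : (1 : ℝ) ≤ Nat.totient q := by exact_mod_cast Nat.totient_pos.2 hq1
        have h9 : c * N / 2 ≤ 3 / (4 * |β|) := by
          refine h5.trans ?_
          calc (1 / (Nat.totient q : ℝ)) * ‖∑ m ∈ Ico 1 (N + 1), ee ((m : ℝ) * β)‖ ≤
                1 * ‖∑ m ∈ Ico 1 (N + 1), ee ((m : ℝ) * β)‖ := by
                apply mul_le_mul_of_nonneg_right _ (norm_nonneg _)
                rw [div_le_one hφ]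
                exact h8
            _ ≤ _ := by rw [one_mul]; exact h7
        rw [le_div_iff₀ (by positivity)] at h9
        rw [le_div_iff₀ hNr]
        have h10 : |β| * N ≤ 2 / c := by
          rw [le_div_iff₀ hc]
          nlinarith
        rw [hBr]
        linarith

end Pool.Agent.NH21.Nls
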