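import Pool.Agent.W24.Katai
import Pool.Agent.NH21.Sar.Cov
import Pool.Agent.TH823.MRS.Circ2

/-!
# Local Fourier uniformity of multiplicative functions for frequencies in null sets: statements of the steps
-/

set_option autoImplicit false

namespace Pool.Agent.NH21.Nls

open Finset Filter Topology
open Pool.Agent.H807R2.Dav (ee)
open Pool.Agent.NH21.Sar (CovR)
open Pool.Agent.W24.Katai (Mul1 cor)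
open Pool.Agent.TH823.MRS (ExpoSmall)

/-- the primes in `(y, 2 y]` -/
def PB (y : ℕ) : Finset ℕ := (Ioc y (2 * y)).filter Nat.Prime

/-- the number of the window of `n`; the windows are `{n | (n + s) / H = k}` -/
def kx (H s n : ℕ) : ℕ := (n + s) / H

/-- the sequence which is `om k * e (n * al k)` on the `k`-th window -/
noncomputable def Fw (H s : ℕ) (om : ℕ → ℂ) (al : ℕ → ℝ) (n : ℕ) : ℂ :=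
  om (kx H s n) * ee ((n : ℝ) * al (kx H s n))

/-- the windows of `z / p` and of `z / q` are good and their frequencies are related -/
def Rel (H s : ℕ) (om : ℕ → ℂ) (al : ℕ → ℝ) (e : ℝ) (z p q : ℕ) : Prop :=
  om (kx H s (z / p)) ≠ 0 ∧ om (kx H s (z / q)) ≠ 0 ∧
    ‖(((p : ℝ) * al (kx H s (z / q)) - (q : ℝ) * al (kx H s (z / p)) : ℝ) : UnitAddCircle)‖ ≤ e

/-- at each scale `1/x` the set is covered by `η x * x` arcs -/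
def ThinBy (η : ℝ → ℝ) (A : Set UnitAddCircle) : Prop := ∀ x : ℝ, 1 ≤ x → CovR A x (η x * x)

/-- K: the criterion of Kátai in dyadic blocks of primes -/
def S_K : Prop := ∀ ε : ℝ, 0 < ε → ∀ k0 : ℕ, ∃ k1 N0 : ℕ, ∀ N : ℕ, N0 ≤ N → ∀ F g : ℕ → ℂ,
  (∀ n, ‖F n‖ ≤ 1) → Mul1 g → ε * N ≤ ‖∑ n ∈ Ioc 0 N, g n * F n‖ →
  ∃ k : ℕ, k0 ≤ k ∧ k < k1 ∧ ε ^ 2 / 16 * ((PB (2 ^ k)).card : ℝ) ^ 2 * ((N : ℝ) / 2 ^ k) ≤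
    ∑ p ∈ PB (2 ^ k), ∑ q ∈ PB (2 ^ k), ‖cor F p q (min (N / p) (N / q))‖

open Classical in
/-- Z: from correlations along pairs of primes to relations between the frequencies -/
def S_Z : Prop := ∀ c : ℝ, 0 < c → c ≤ 1 → ∃ C : ℝ, 1 ≤ C ∧ ∀ y H : ℕ, 1 ≤ y → C * y ≤ H → ∃ M0 : ℕ, ∀ M : ℕ, M0 ≤ M →
  ∀ s : ℕ, s < H → ∀ (om : ℕ → ℂ) (al : ℕ → ℝ), (∀ k, ‖om k‖ ≤ 1) → ∀ m : ℕ → ℕ → ℕ, (∀ p ∈ PB y, ∀ q ∈ PB y, m p q ≤ M) →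
  c * ((PB y).card : ℝ) ^ 2 * M ≤ ∑ p ∈ PB y, ∑ q ∈ PB y, ‖cor (Fw H s om al) p q (m p q)‖ →
  c / 32 * ((PB y).card : ℝ) ^ 2 * ((4 * y ^ 2 * (M + 1) : ℕ) : ℝ) ≤
    ∑ z ∈ range (4 * y ^ 2 * (M + 1)), (((PB y ×ˢ PB y).filter (fun pq => Rel H s om al (C * y / H) z pq.1 pq.2)).card : ℝ)

open Classical in
/-- G: two vertices with many common neighbours -/
def S_G : Prop := ∀ (P : Finset ℕ) (R : ℕ → ℕ → Prop) (c : ℝ), 0 < c → c ≤ 1 → (∀ p q, R p q → R q p) →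
  4 / c ^ 2 ≤ (P.card : ℝ) → c * (P.card : ℝ) ^ 2 ≤ (((P ×ˢ P).filter (fun pq => R pq.1 pq.2)).card : ℝ) →
  ∃ p0 ∈ P, ∃ p1 ∈ P, p0 ≠ p1 ∧
    c ^ 2 / 8 * P.card ≤ ((P.filter (fun p => p ≠ p0 ∧ p ≠ p1 ∧ R p p0 ∧ R p p1)).card : ℝ)

/-- R: a common root of the frequencies -/
def S_R : Prop := ∀ (y : ℕ) (W : Finset ℕ) (e : ℝ) (al : ℕ → ℝ) (p0 p1 : ℕ), 1 ≤ y → p0 ∈ PB y → p1 ∈ PB y → p0 ≠ p1 →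
  W ⊆ PB y → p0 ∉ W → p1 ∉ W → 2 ≤ W.card → 16 * (y : ℝ) ^ 2 * e < 1 →
  (∀ p ∈ W, ‖(((p0 : ℝ) * al p - (p : ℝ) * al p0 : ℝ) : UnitAddCircle)‖ ≤ e ∧
    ‖(((p1 : ℝ) * al p - (p : ℝ) * al p1 : ℝ) : UnitAddCircle)‖ ≤ e) →
  ∃ β : ℝ, ∀ p ∈ W, ‖(((p : ℝ) * β - al p : ℝ) : UnitAddCircle)‖ ≤ e / y

/-- E: large exponential sums over primes -/
def S_E : Prop := ∀ c : ℝ, 0 < c → ∃ B N0 : ℕ, ∀ N : ℕ, N0 ≤ N → ∀ α : ℝ,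
  c * N ≤ ‖∑ n ∈ Icc 1 N, ((ArithmeticFunction.vonMangoldt n : ℝ) : ℂ) * ee ((n : ℝ) * α)‖ →
  ∃ b : ℕ, 1 ≤ b ∧ b ≤ B ∧ ∃ a : ℤ, |α - a / b| ≤ B / N

/-- C: the number of primes in a dyadic block -/
def S_C : Prop := ∃ y0 : ℕ, ∀ y : ℕ, y0 ≤ y → (y : ℝ) / (2 * Real.log y) ≤ ((PB y).card : ℝ)

/-- L: primes with dilates near a thin set -/
def S_L : Prop := ∀ η : ℝ → ℝ, Tendsto η atTop (𝓝 0) → ∀ c : ℝ, 0 < c → ∃ B0 : ℕ, ∀ l : ℝ, 0 < l →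
  ∃ τ : ℝ, 0 < τ ∧ ∃ y0 : ℕ, ∀ y : ℕ, y0 ≤ y → ∀ A : Set UnitAddCircle, ThinBy η A → ∀ W : Finset ℕ, W ⊆ PB y →
  c * (y : ℝ) / Real.log y ≤ (W.card : ℝ) → ∀ β : ℝ,
  (∀ p ∈ W, ∃ x ∈ A, ‖(((p : ℝ) * β : ℝ) : UnitAddCircle) - x‖ ≤ τ) →
  ∃ b : ℕ, 1 ≤ b ∧ b ≤ B0 ∧ ∃ a : ℤ, |β - a / b| * y ≤ l

open Classical in
/-- M: few windows with correlations with frequencies near fixed rationals -/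
def S_M : Prop := ∀ h : ℕ → ℂ, (∀ n, ‖h n‖ ≤ 1) → ExpoSmall h → ∀ ε : ℝ, 0 < ε → ∀ κ : ℝ, 0 < κ → ∀ B0 : ℕ,
  ∃ l : ℝ, 0 < l ∧ ∃ H0 : ℕ, ∀ H : ℕ, H0 ≤ H → ∃ N0 : ℕ, ∀ N : ℕ, N0 ≤ N → ∀ s : ℕ, s < H →
  ∀ (al : ℕ → ℝ) (G : ℕ → Prop), (∀ k, G k → 1 ≤ k ∧ (∃ b : ℕ, 1 ≤ b ∧ b ≤ B0 ∧ ∃ a : ℤ, |al k - a / b| ≤ l) ∧
    ε * H ≤ ‖∑ i ∈ range H, h (k * H - s + i) * ee (((k * H - s + i : ℕ) : ℝ) * al k)‖) →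
  (((range N).filter (fun n => G (kx H s n))).card : ℝ) ≤ κ * N

open Classical in
/-- the core -/
def S_Core : Prop := ∀ h : ℕ → ℂ, Mul1 h → ExpoSmall h → ∀ η : ℝ → ℝ, Tendsto η atTop (𝓝 0) → ∀ ε : ℝ, 0 < ε →
  ∃ H0 : ℕ, ∀ H : ℕ, H0 ≤ H → ∃ N0 : ℕ, ∀ N : ℕ, N0 ≤ N → ∀ A : Set UnitAddCircle, ThinBy η A → ∀ s : ℕ, s < H →
  ∀ (om : ℕ → ℂ) (al : ℕ → ℝ), (∀ k, ‖om k‖ ≤ 1) → om 0 = 0 → (∀ k, ((al k : ℝ) : UnitAddCircle) ∈ A) →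
  (∀ k, om k ≠ 0 → ε * H ≤ ‖∑ i ∈ range H, h (k * H - s + i) * ee (((k * H - s + i : ℕ) : ℝ) * al k)‖) →
  ‖∑ n ∈ Ioc 0 N, h n * Fw H s om al n‖ ≤ ε * N

/-- the theorem on local Fourier uniformity -/
def S_F : Prop := ∀ h : ℕ → ℂ, Mul1 h → ExpoSmall h → ∀ η : ℝ → ℝ, Tendsto η atTop (𝓝 0) → ∀ ε : ℝ, 0 < ε →
  ∃ H0 : ℕ, ∀ H : ℕ, H0 ≤ H → ∃ N0 : ℕ, ∀ N : ℕ, N0 ≤ N → ∀ A : Set UnitAddCircle, ThinBy η A →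
  ∀ a : ℕ → ℝ, (∀ n, ((a n : ℝ) : UnitAddCircle) ∈ A) →
  ∑ n ∈ range N, ‖∑ i ∈ range H, h (n + i) * ee ((i : ℝ) * a n)‖ ≤ ε * H * N

end Pool.Agent.NH21.Nls
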